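import Pool.Agent.H705.TR.Stm

/-! # The gcd recursion for prime triples in the random model: package AS (project TR of helper705) -/

set_option autoImplicit false

namespace Pool.Agent.H23.TR

open MeasureTheory ProbabilityTheory Finset Filter Topology
open Pool.Agent.H705.TR

/-- the growth estimates -/
theorem growth {N : ℕ} (hl : 200 ≤ Real.log N) (hN : Real.log N ^ 22 ≤ N) :
    6 ≤ N ∧ Ok (Nat.sqrt (N + 6)) (N / 2) ⌈Real.log N ^ 5⌉₊ 2 (N - 4) ∧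
    (5 : ℝ) + ⌈Real.log N ^ 5⌉₊ * (2 + ⌈Real.log N ^ 5⌉₊ * (3 * Nat.sqrt (N + 6) + 1) + 4) ≤
      √(N : ℝ) * Real.log N ^ 11 := by
  obtain ⟨l, hld⟩ : ∃ l, l = Real.log N := ⟨_, rfl⟩
  rw [← hld] at hl hN ⊢
  obtain ⟨s, hs⟩ : ∃ s, s = √(N : ℝ) := ⟨_, rfl⟩
  have hN0 : (0 : ℝ) ≤ N := Nat.cast_nonneg N
  have hss : s ^ 2 = N := by
    rw [hs]
    exact Real.sq_sqrt hN0
  have hl0 : 0 ≤ l := by linarith
  have hsl : l ^ 11 ≤ s := by
    rw [hs]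
    refine Real.le_sqrt_of_sq_le ?_
    rw [← pow_mul]
    exact hN
  have hl1 : (1 : ℝ) ≤ l := by linarith
  have hp5 : (1 : ℝ) ≤ l ^ 5 := one_le_pow₀ hl1
  have hp10 : (1 : ℝ) ≤ l ^ 10 := one_le_pow₀ hl1
  have hp11 : 200 * l ^ 10 ≤ l ^ 11 := by
    rw [pow_succ l 10, mul_comm]
    exact mul_le_mul_of_nonneg_left hl (by positivity)
  have hs1 : (200 : ℝ) ≤ s := by linarith
  have hN6 : (100 : ℝ) ≤ N := by
    rw [← hss]
    nlinarith
  have hN6' : 100 ≤ N := by exact_mod_cast hN6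
  obtain ⟨z, hz⟩ : ∃ z, z = Nat.sqrt (N + 6) := ⟨_, rfl⟩
  obtain ⟨K, hK⟩ : ∃ K, K = ⌈l ^ 5⌉₊ := ⟨_, rfl⟩
  rw [← hs, ← hz, ← hK]
  have hz1 : (z : ℝ) ≤ 2 * s := by
    have h1 : z ^ 2 ≤ N + 6 := by
      rw [hz]
      exact Nat.sqrt_le' (N + 6)
    have h2 : (z : ℝ) ^ 2 ≤ N + 6 := by exact_mod_cast h1
    refine abs_le_of_sq_le_sq' ?_ (by positivity) |>.2
    rw [mul_pow, hss]
    linarith
  have hK1 : (K : ℝ) ≤ 2 * l ^ 5 := by
    have := Nat.ceil_lt_add_one (a := l ^ 5) (by positivity)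
    rw [hK]
    linarith
  have hz0 : (0 : ℝ) ≤ z := Nat.cast_nonneg z
  have hK0 : (0 : ℝ) ≤ K := Nat.cast_nonneg K
  have hT : (K : ℝ) * (3 * z + 1) ≤ 14 * (l ^ 5 * s) := by
    have h1 : (3 * z + 1 : ℝ) ≤ 7 * s := by linarith
    calc (K : ℝ) * (3 * z + 1) ≤ (2 * l ^ 5) * (7 * s) :=
          mul_le_mul hK1 h1 (by positivity) (by positivity)
      _ = 14 * (l ^ 5 * s) := by ring
  have hls : (1 : ℝ) ≤ l ^ 5 * s := by nlinarith
  have hKT : (K : ℝ) * (2 + K * (3 * z + 1) + 4) ≤ 40 * (l ^ 10 * s) := by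
    have h1 : (2 + K * (3 * z + 1) + 4 : ℝ) ≤ 20 * (l ^ 5 * s) := by linarith
    calc (K : ℝ) * (2 + K * (3 * z + 1) + 4) ≤ (2 * l ^ 5) * (20 * (l ^ 5 * s)) :=
          mul_le_mul hK1 h1 (by positivity) (by positivity)
      _ = 40 * (l ^ 10 * s) := by ring
  have h10 : (1 : ℝ) ≤ l ^ 10 * s := by nlinarith
  have h510 : l ^ 5 * s ≤ l ^ 10 * s :=
    mul_le_mul_of_nonneg_right (pow_le_pow_right₀ hl1 (by norm_num)) (by linarith)
  have h1011 : 200 * (l ^ 10 * s) ≤ s * l ^ 11 := by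
    have := mul_le_mul_of_nonneg_left hp11 (by linarith : 0 ≤ s)
    linarith
  have hsq : s * l ^ 11 ≤ N := by
    rw [← hss, pow_two]
    exact mul_le_mul_of_nonneg_left hsl (by linarith)
  refine ⟨by omega, ⟨by norm_num, ?_⟩, by linarith⟩
  have h1 : N / 2 + K * (2 + K * (3 * z + 1) + 4) + 2 * (2 + K * (3 * z + 1)) + 15 + 4 ≤ N := by
    have h2 : ((N / 2 : ℕ) : ℝ) ≤ N / 2 := Nat.cast_div_le
    have h3 : ((N / 2 + K * (2 + K * (3 * z + 1) + 4) + 2 * (2 + K * (3 * z + 1)) + 15 + 4 : ℕ) : ℝ)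
        ≤ N := by
      push_cast
      linarith
    exact_mod_cast h3
  omega

theorem T_AS (hRUN : P_RUN) (hFLB : P_FLB) (hLNK : P_LNK) (hRCH : P_RCH) (hIND : P_IND)
    (hUN : P_UN) (hNT1 : P_NT1) : P_AS := by
  intro Ω _ M P X hF hM
  have := hM.prob
  obtain ⟨c₀, hc₀, hnt⟩ := hNT1
  have hlog : Tendsto (fun N : ℕ => Real.log N) atTop atTop :=
    Real.tendsto_log_atTop.comp tendsto_natCast_atTop_atTop
  have hpow : ∀ᶠ N : ℕ in atTop, Real.log N ^ 22 ≤ N := by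
    have h := (Real.isLittleO_pow_log_id_atTop (n := 22)).bound zero_lt_one
    have h' := tendsto_natCast_atTop_atTop.eventually h
    filter_upwards [h'] with N hN
    rw [Real.norm_eq_abs, one_mul, id, Real.norm_eq_abs, Nat.abs_cast] at hN
    exact (le_abs_self _).trans hN
  obtain ⟨N₀, hN₀⟩ : ∃ N₀ : ℕ, ∀ N ≥ N₀, 200 ≤ Real.log N ∧ 2 / c₀ ≤ Real.log N ∧
      c₀ ≤ Real.log N ∧ Real.log N ^ 22 ≤ N := by
    have h := ((hlog.eventually_ge_atTop 200).and ((hlog.eventually_ge_atTop (2 / c₀)).and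
      ((hlog.eventually_ge_atTop c₀).and hpow)))
    exact eventually_atTop.1 h
  -- the bad events
  obtain ⟨Ev, hEv⟩ : ∃ Ev : ℕ → Set Ω, Ev = fun N => {ω | ¬ Reach (Nat.sqrt (N + 6))
      (fun _ _ => True) ⌈Real.log N ^ 5⌉₊ 2 (N - 4) fun i => X i ω} := ⟨_, rfl⟩
  have hbad : ∀ N ≥ N₀, P.real (Ev N) ≤ 1 / (N : ℝ) ^ 2 := by
    intro N hN
    obtain ⟨a1, a2, a3, a4⟩ := hN₀ N hN
    obtain ⟨g1, g2, -⟩ := growth a1 a4
    obtain ⟨l, hld⟩ : ∃ l, l = Real.log N := ⟨_, rfl⟩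
    rw [hEv]
    simp only
    rw [← hld] at a1 a2 a3 a4 g2 ⊢
    have hl0 : 0 < l := by linarith
    have hNp : (0 : ℝ) < N := by
      have : 0 < N := by omega
      exact_mod_cast this
    have hδ1 : c₀ / l ^ 3 ≤ 1 := by
      rw [div_le_one (by positivity)]
      have : l ≤ l ^ 3 := le_self_pow₀ (by linarith) (by norm_num)
      linarith
    have hδ0 : 0 ≤ c₀ / l ^ 3 := by positivity
    have hind := hIND Ω M P X hM (Nat.sqrt (N + 6)) (N / 2) N (fun _ _ => True) 1 1 (c₀ / l ^ 3)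
      hδ0 hδ1 (by
        intro c hc1 hc2
        refine ⟨by simp, by simp, ?_⟩
        rw [(hUN Ω M P X hM c (R (Nat.sqrt (N + 6)) c)).2]
        have hc : 2 ≤ c := by omega
        refine le_trans ?_ (hnt _ c (M c) hc (hF c))
        have h1 : 0 < Real.log c := Real.log_pos (by exact_mod_cast (by omega : 1 < c))
        have h2 : Real.log c ≤ l := by
          rw [hld]
          exact Real.log_le_log (by exact_mod_cast (by omega : 0 < c)) (by exact_mod_cast hc2)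
        exact div_le_div_of_nonneg_left hc₀.le (by positivity) (pow_le_pow_left₀ h1.le h2 3))
      ⌈l ^ 5⌉₊ 2 (N - 4) g2 (by omega)
    obtain ⟨hm, -, -, hp⟩ := hind
    have hcompl : P.real {ω | ¬ Reach (Nat.sqrt (N + 6)) (fun _ _ => True) ⌈l ^ 5⌉₊ 2 (N - 4)
        fun i => X i ω} = 1 - P.real {ω | Reach (Nat.sqrt (N + 6)) (fun _ _ => True) ⌈l ^ 5⌉₊ 2
        (N - 4) fun i => X i ω} := by
      have := probReal_compl_eq_one_sub (μ := P) hm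
      exact this
    rw [hcompl]
    have h3 : (1 - c₀ / l ^ 3) ^ ⌈l ^ 5⌉₊ ≤ 1 / (N : ℝ) ^ 2 := by
      have e1 : 1 - c₀ / l ^ 3 ≤ Real.exp (-(c₀ / l ^ 3)) := by
        have := Real.add_one_le_exp (-(c₀ / l ^ 3))
        linarith
      have e2 : (1 - c₀ / l ^ 3) ^ ⌈l ^ 5⌉₊ ≤ Real.exp (-(c₀ / l ^ 3)) ^ ⌈l ^ 5⌉₊ :=
        pow_le_pow_left₀ (by linarith) e1 _
      refine e2.trans ?_
      rw [← Real.exp_nat_mul]
      have e3 : 1 / (N : ℝ) ^ 2 = Real.exp (-(2 * l)) := by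
        rw [Real.exp_neg, hld, two_mul, Real.exp_add, Real.exp_log hNp, one_div, pow_two]
      rw [e3]
      refine Real.exp_le_exp.2 ?_
      have e4 : l ^ 5 ≤ (⌈l ^ 5⌉₊ : ℝ) := Nat.le_ceil _
      have e5 : l ^ 5 * (c₀ / l ^ 3) ≤ ⌈l ^ 5⌉₊ * (c₀ / l ^ 3) :=
        mul_le_mul_of_nonneg_right e4 hδ0
      have e6 : l ^ 5 * (c₀ / l ^ 3) = c₀ * l * l := by
        field_simp
      have e7 : 2 ≤ c₀ * l := by
        rw [div_le_iff₀ hc₀] at a2
        linarith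
      have e8 : 2 * l ≤ c₀ * l * l := mul_le_mul_of_nonneg_right e7 hl0.le
      linarith
    linarith
  -- Borel-Cantelli
  have hsum : ∑' N : ℕ, P (if N₀ ≤ N then Ev N else ∅) ≠ ⊤ := by
    have h1 : Summable (fun N : ℕ => 1 / (N : ℝ) ^ 2) := Real.summable_one_div_nat_pow.2 (by norm_num)
    have h2 : ∀ N : ℕ, P (if N₀ ≤ N then Ev N else ∅) ≤ ENNReal.ofReal (1 / (N : ℝ) ^ 2) := by
      intro N
      split_ifs with hN
      · rw [← ENNReal.ofReal_toReal (measure_ne_top P (Ev N))]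
        exact ENNReal.ofReal_le_ofReal (hbad N hN)
      · rw [measure_empty]
        exact zero_le
    refine ne_top_of_le_ne_top ?_ (ENNReal.tsum_le_tsum h2)
    rw [← ENNReal.ofReal_tsum_of_nonneg (fun N => by positivity) h1]
    exact ENNReal.ofReal_ne_top
  have hBC := ae_eventually_notMem hsum
  filter_upwards [hBC] with ω hω
  filter_upwards [hω, eventually_ge_atTop N₀] with N hN hNN
  rw [if_pos hNN, hEv, Set.mem_ofPred_eq, not_not] at hN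
  obtain ⟨a1, a2, a3, a4⟩ := hN₀ N hNN
  obtain ⟨g1, g2, g3⟩ := growth a1 a4
  obtain ⟨n', c', k1, k2, k3, k4, k5, k6, k7, -⟩ := hLNK _ (N / 2) _ _ 2 (N - 4) _ g2 hN
  have hfree : Free c' (X c' ω) := by
    refine (hRCH.2.2.2 (Nat.sqrt (N + 6)) c' (X c' ω)).2 ?_ k7
    have h1 := Nat.lt_succ_sqrt' (N + 6)
    have h2 : c' + 6 ≤ N + 6 := by omega
    exact lt_of_le_of_lt h2 h1
  have hfl := hFLB.2.2.1 (fun i => X i ω) n' c' (by omega) hfree
  have hrun := (hRUN (fun i => X i ω) N g1).2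
  rw [k6, hfl] at hrun
  rw [hrun]
  refine ⟨hfree, ?_⟩
  have h1 : (N : ℝ) - 4 ≤ c' + (⌈Real.log N ^ 5⌉₊ * (2 + ⌈Real.log N ^ 5⌉₊ *
      (3 * Nat.sqrt (N + 6) + 1) + 4) : ℝ) := by
    have h2 : N ≤ c' + ⌈Real.log N ^ 5⌉₊ * (2 + ⌈Real.log N ^ 5⌉₊ *
      (3 * Nat.sqrt (N + 6) + 1) + 4) + 4 := by omega
    have h3 : (N : ℝ) ≤ ((c' + ⌈Real.log N ^ 5⌉₊ * (2 + ⌈Real.log N ^ 5⌉₊ *
      (3 * Nat.sqrt (N + 6) + 1) + 4) + 4 : ℕ) : ℝ) := by exact_mod_cast h2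
    push_cast at h3
    linarith
  have h4 : (F (fun i => X i ω) N : ℝ) + 1 = c' := by exact_mod_cast hrun
  linarith

end Pool.Agent.H23.TR
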